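import Pool.Agent.H487.NZ.XDatum
import Pool.Graph.R_seed8.Y766.ZE

/-!
# Almost all Dirichlet L-functions in thin families: all low zeros of the heat flow are on the line
-/

set_option autoImplicit false

open Filter Topology Set
open scoped ComplexConjugate

namespace Pool.Agent.H487.AA

open NB H353.E H353.F Complex

/-- the completed L-function of `χ` vanishes only where `L(s, χ)` does, in `Re s > 0` -/
lemma lf_zero {q : ℕ} [NeZero q] {χ : DirichletCharacter ℂ q} {s : ℂ}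
    (hs : s ≠ 0) (h : DirichletCharacter.completedLFunction χ s = 0) :
    DirichletCharacter.LFunction χ s = 0 := by
  rw [DirichletCharacter.LFunction_eq_completed_div_gammaFactor χ s (Or.inl hs), h, zero_div]

lemma dir_cond' {q : ℕ} [NeZero q] (χ : DirichletCharacter ℂ q) (y : ℝ) :
    (q : ℝ) * (1 + |y|) ≤ NB.cond (q : ℝ) (fun _ : Fin 1 => -H370.DL.aa χ) y := by
  unfold NB.cond
  simp only [Finset.univ_unique, Finset.prod_singleton]
  have h1 := Complex.abs_im_le_norm ((y : ℂ) * I - -H370.DL.aa χ)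
  have h2 : ((y : ℂ) * I - -H370.DL.aa χ).im = y := by
    unfold H370.DL.aa
    split_ifs <;> simp
  rw [h2] at h1
  have hq0 : (0 : ℝ) ≤ q := Nat.cast_nonneg q
  gcongr

/-- the good characters: all zeros of the flow up to height `q^c` are on the line -/
def Good (η c t₁ : ℝ) {q : ℕ} [NeZero q] (χ : DirichletCharacter ℂ q) : Prop :=
  ∀ t : ℝ, 0 < t → η ≤ t * Real.log q → ∀ s : ℂ, |s.im| ≤ (q : ℝ) ^ c →
    flow t (xi q (DirichletCharacter.completedLFunction χ)) s = 0 →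
    s.re = 1 / 2 ∧ (t ≤ t₁ → deriv (flow t (xi q (DirichletCharacter.completedLFunction χ))) s ≠ 0)

theorem good_of {η : ℝ} (hη : 0 < η) : ∃ (A t₁ : ℝ) (q₀ : ℕ), 0 < A ∧ 0 < t₁ ∧ 1 < q₀ ∧
    ∀ (q : ℕ) [NeZero q] (χ : DirichletCharacter ℂ q), q₀ ≤ q → χ.IsPrimitive → ∀ c : ℝ,
    (∀ ρ : ℂ, DirichletCharacter.LFunction χ ρ = 0 → 1 / 2 + η / 4 ≤ ρ.re → ¬ |ρ.im| ≤ (q : ℝ) ^ c + A) →
    Good η c t₁ χ := by
  obtain ⟨A, t₁, hA, ht₁, K⟩ := H487.NZ.datum_conv 1 le_rfl (θ := 0) le_rfl (by norm_num) (half_pos hη)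
  obtain ⟨C₁, hC₁, K2⟩ := H487.NB.datum_all 1 le_rfl (θ := 0) (η := 1) le_rfl (by norm_num) one_pos
  obtain ⟨q₁, hq₁⟩ := exists_nat_ge C₁
  obtain ⟨q₂, hq₂⟩ := exists_nat_ge (Real.exp (2 / t₁))
  refine ⟨A, t₁, max (max q₁ q₂) 2, hA, ht₁, lt_max_of_lt_right (by norm_num), fun q _ χ hq hχ c h => ?_⟩
  have hq1 : 1 < q := lt_of_lt_of_le (by norm_num) ((le_max_right _ _).trans hq)
  have hq0 : (0 : ℝ) < q := by exact_mod_cast (by omega : 0 < q)
  have d := datumT_dir hq1 hχ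
  have hlog : 0 < Real.log q := Real.log_pos (by exact_mod_cast hq1)
  intro t ht htq s hs hz
  rcases le_total t t₁ with htt | htt
  · have h2 := K _ _ _ _ _ d s.im t (η / 4) ht htt (by linarith) (by
      have h3 : Real.log q ≤ Real.log (NB.cond (q : ℝ) (fun _ : Fin 1 => -H370.DL.aa χ) s.im) := by
        apply Real.log_le_log hq0
        have := dir_cond' χ s.im
        have := abs_nonneg s.im
        nlinarith
      have h4 := mul_le_mul_of_nonneg_left h3 ht.le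
      linarith) (fun z h1 h2 h3 => ?_) s rfl hz
    · exact ⟨h2.1, fun _ => h2.2⟩
    · have h4 := (H487.NB.xi_zero d.one_le _ z).mp h3
      have hz0 : z ≠ 0 := by
        rintro rfl
        simp at h1
        linarith
      refine h z (lf_zero hz0 h4) h1.le ?_
      have h5 := abs_sub_abs_le_abs_sub z.im s.im
      linarith
  · have h2 : (1 + 2 * (0 : ℝ) + 1) / Real.log q ≤ t := by
      have h3 : 2 / t₁ ≤ Real.log q := by
        rw [Real.le_log_iff_exp_le hq0]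
        exact hq₂.trans (by exact_mod_cast (le_max_right q₁ q₂).trans ((le_max_left _ _).trans hq))
      rw [div_le_iff₀ ht₁] at h3
      rw [div_le_iff₀ hlog]
      nlinarith
    have h3 := K2 _ _ _ _ _ d q (hq₁.trans (by exact_mod_cast (le_max_left q₁ q₂).trans ((le_max_left _ _).trans hq)))
      (fun y => by
        refine le_trans ?_ (dir_cond' χ y)
        have := abs_nonneg y
        nlinarith) t h2
    refine ⟨h3 s hz, fun htt' => ?_⟩
    have htt2 : t = t₁ := le_antisymm htt' htt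
    have h2 := K _ _ _ _ _ d s.im t (η / 4) ht htt' (by linarith) (by
      have h3 : Real.log q ≤ Real.log (NB.cond (q : ℝ) (fun _ : Fin 1 => -H370.DL.aa χ) s.im) := by
        apply Real.log_le_log hq0
        have := dir_cond' χ s.im
        have := abs_nonneg s.im
        nlinarith
      have h4 := mul_le_mul_of_nonneg_left h3 ht.le
      linarith) (fun z h1 h2 h3 => ?_) s rfl hz
    · exact h2.2
    · have h4 := (H487.NB.xi_zero d.one_le _ z).mp h3
      have hz0 : z ≠ 0 := by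
        rintro rfl
        simp at h1
        linarith
      refine h z (lf_zero hz0 h4) h1.le ?_
      have h5 := abs_sub_abs_le_abs_sub z.im s.im
      linarith

/-- the number of exceptions in a thin family -/
theorem thin (k : ℕ) {η : ℝ} (hη : 0 < η) : ∃ (c t₁ : ℝ) (q₀ : ℕ), 0 < c ∧ 0 < t₁ ∧
    ∀ (q d : ℕ) [NeZero q] [NeZero d], q₀ ≤ q → ∀ (hd : d ∣ q)
    (F : Finset (DirichletCharacter ℂ d)), Pool.Agent.Y766.CosetProg k F →
    (d : ℝ) ^ (2 / 3 : ℝ) ≤ F.card → (q : ℝ) ^ (1 / 2 : ℝ) ≤ F.card →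
    ∀ (ψ : DirichletCharacter ℂ q),
    (({θ | θ ∈ F ∧ (ψ * DirichletCharacter.changeLevel hd θ).IsPrimitive ∧
      ¬ Good η c t₁ (ψ * DirichletCharacter.changeLevel hd θ)} : Set (DirichletCharacter ℂ d)).ncard : ℝ) ≤
        (q : ℝ) ^ (-c) * F.card := by
  classical
  obtain ⟨η', hη'⟩ : ∃ η' : ℝ, η' = min η 1 := ⟨_, rfl⟩
  have hη'0 : 0 < η' := by rw [hη']; exact lt_min hη one_pos
  have hη'1 : η' ≤ 1 := by rw [hη']; exact min_le_right _ _
  have hη'2 : η' ≤ η := by rw [hη']; exact min_le_left _ _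
  obtain ⟨A, t₁, q₁, hA, ht₁, hq₁, K⟩ := good_of hη'0
  have hδ0 : 0 < η' / 4 := by linarith
  obtain ⟨C, B, hC, Z⟩ := Pool.Agent.Y766.zd_coset k (ε := η' / 32) (by linarith)
  -- parameters
  set c : ℝ := η' / (32 * (B + 1)) with hc
  have hB0 : (0 : ℝ) ≤ B := Nat.cast_nonneg B
  have hc0 : 0 < c := by positivity
  have hcB : c * (B + 1) = η' / 32 := by rw [hc]; field_simp
  set K₁ : ℝ := C * (2 + A) ^ B with hK₁
  have hK₁0 : 0 < K₁ := by positivity
  obtain ⟨q₂, hq₂⟩ := exists_nat_ge (K₁ ^ (32 / η'))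
  refine ⟨c, t₁, max q₁ q₂, hc0, ht₁, fun q d _ _ hq hd F hF h1 h2 ψ => ?_⟩
  have hqq : 1 < q := lt_of_lt_of_le hq₁ ((le_max_left _ _).trans hq)
  have hq0 : (0 : ℝ) < q := by exact_mod_cast (by omega : 0 < q)
  have hq1 : (1 : ℝ) ≤ q := by exact_mod_cast (by omega : 1 ≤ q)
  have hT0 : (0 : ℝ) ≤ (q : ℝ) ^ c + A := by positivity
  have hz := Z q d hqq hd F hF h1 h2 ψ (1 / 2 + η' / 4) ((q : ℝ) ^ c + A) (by linarith) (by linarith) hT0
  set S : Finset (DirichletCharacter ℂ d) := F.filter (fun θ => (ψ * DirichletCharacter.changeLevel hd θ).IsPrimitive ∧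
      ∃ ρ : ℂ, (ψ * DirichletCharacter.changeLevel hd θ).LFunction ρ = 0 ∧ 1 / 2 + η' / 4 ≤ ρ.re ∧
        |ρ.im| ≤ (q : ℝ) ^ c + A) with hS
  have hsub : ({θ | θ ∈ F ∧ (ψ * DirichletCharacter.changeLevel hd θ).IsPrimitive ∧
      ¬ Good η c t₁ (ψ * DirichletCharacter.changeLevel hd θ)} : Set (DirichletCharacter ℂ d)) ⊆ (S : Set _) := by
    rintro θ ⟨h3, h4, h5⟩
    rw [hS, Finset.coe_filter]
    refine ⟨h3, h4, ?_⟩
    by_contra h6
    push Not at h6
    apply h5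
    have h7 := K q (ψ * DirichletCharacter.changeLevel hd θ) ((le_max_left _ _).trans hq) h4 c
      (fun ρ h8 h9 h10 => absurd (h6 ρ h8 h9) (not_lt.mpr h10))
    intro t ht htq s hs hzs
    exact h7 t ht (hη'2.trans htq) s hs hzs
  have h3 : (({θ | θ ∈ F ∧ (ψ * DirichletCharacter.changeLevel hd θ).IsPrimitive ∧
      ¬ Good η c t₁ (ψ * DirichletCharacter.changeLevel hd θ)} : Set (DirichletCharacter ℂ d)).ncard : ℝ) ≤ S.card := by
    have := Set.ncard_le_ncard hsub (Finset.finite_toSet S)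
    rw [Set.ncard_coe_finset] at this
    exact_mod_cast this
  refine h3.trans (hz.trans ?_)
  -- numerics
  have hF1 : (1 : ℝ) ≤ F.card := (Real.one_le_rpow hq1 (by norm_num)).trans h2
  have hF0 : (0 : ℝ) < F.card := by linarith
  have e1 : (3 : ℝ) / 2 - (1 / 2 + η' / 4) = 1 + -(η' / 4) := by ring
  have e2 : (F.card : ℝ) ^ (3 / 2 - (1 / 2 + η' / 4) : ℝ) = F.card * (F.card : ℝ) ^ (-(η' / 4)) := by
    rw [e1, Real.rpow_add hF0, Real.rpow_one]
  have e3 : (F.card : ℝ) ^ (-(η' / 4)) ≤ (q : ℝ) ^ (-(η' / 8)) := by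
    have h4 : (F.card : ℝ) ^ (-(η' / 4)) ≤ ((q : ℝ) ^ (1 / 2 : ℝ)) ^ (-(η' / 4)) :=
      Real.rpow_le_rpow_of_nonpos (by positivity) h2 (by linarith)
    rw [← Real.rpow_mul hq0.le] at h4
    convert h4 using 2
    ring
  have e4 : (1 + ((q : ℝ) ^ c + A)) ^ B ≤ (2 + A) ^ B * (q : ℝ) ^ (c * B) := by
    rw [Real.rpow_mul hq0.le, Real.rpow_natCast, ← mul_pow]
    apply pow_le_pow_left₀ (by positivity)
    have : (1 : ℝ) ≤ (q : ℝ) ^ c := Real.one_le_rpow hq1 hc0.le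
    nlinarith
  have e5 : K₁ ≤ (q : ℝ) ^ (η' / 32) := by
    have h4 : K₁ ^ (32 / η') ≤ q := hq₂.trans (by exact_mod_cast (le_max_right q₁ q₂).trans hq)
    have h5 := Real.rpow_le_rpow (by positivity) h4 (by positivity : 0 ≤ η' / 32)
    rwa [← Real.rpow_mul hK₁0.le, show 32 / η' * (η' / 32) = 1 by field_simp, Real.rpow_one] at h5
  calc C * (1 + ((q : ℝ) ^ c + A)) ^ B * (q : ℝ) ^ (η' / 32) * (F.card : ℝ) ^ (3 / 2 - (1 / 2 + η' / 4) : ℝ)
      ≤ C * ((2 + A) ^ B * (q : ℝ) ^ (c * B)) * (q : ℝ) ^ (η' / 32) * (F.card * (q : ℝ) ^ (-(η' / 8))) := by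
        rw [e2]; gcongr
    _ = K₁ * ((q : ℝ) ^ (c * B) * (q : ℝ) ^ (η' / 32) * (q : ℝ) ^ (-(η' / 8))) * F.card := by rw [hK₁]; ring
    _ ≤ (q : ℝ) ^ (η' / 32) * ((q : ℝ) ^ (c * B) * (q : ℝ) ^ (η' / 32) * (q : ℝ) ^ (-(η' / 8))) * F.card := by
        gcongr
    _ = (q : ℝ) ^ (η' / 32 + (c * B + η' / 32 + -(η' / 8))) * F.card := by
        rw [Real.rpow_add hq0, Real.rpow_add hq0, Real.rpow_add hq0]
    _ ≤ (q : ℝ) ^ (-c) * F.card := by
        refine mul_le_mul_of_nonneg_right (Real.rpow_le_rpow_of_exponent_le hq1 ?_) hF0.le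
        have : c * B + c = η' / 32 := by rw [← hcB]; ring
        linarith

end Pool.Agent.H487.AA
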